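import Pool.Agent.Y322.IV.Stm

/-!
# Project IV, piece PERT: the perturbed function
-/

set_option autoImplicit false

open Set MeasureTheory Function
open scoped unitInterval ContDiff

namespace Pool.Agent.Y977.IV

open Pool.Agent.Y322.IV

section

variable {E : Type} [NormedAddCommGroup E] [InnerProductSpace ℝ E] [FiniteDimensional ℝ E]

omit [FiniteDimensional ℝ E] in
theorem bounds {ε : ℝ} {g : ℕ → E → ℝ} (hg : ∀ j, ContDiff ℝ ∞ (g j))
    (hc : ∀ j, HasCompactSupport (g j))
    (hb : ∀ j k : ℕ, k ≤ j → ∀ x, ‖iteratedFDeriv ℝ k (g j) x‖ ≤ ε / 2 ^ j) :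
    ∃ v : ℕ → ℕ → ℝ, (∀ k, Summable (v k)) ∧
      ∀ k j x, ‖iteratedFDeriv ℝ k (g j) x‖ ≤ v k j := by
  have h1 : ∀ k j : ℕ, ∃ C : ℝ, ∀ x, ‖iteratedFDeriv ℝ k (g j) x‖ ≤ C := by
    intro k j
    exact ((hc j).iteratedFDeriv (𝕜 := ℝ) k).exists_bound_of_continuous
      ((hg j).continuous_iteratedFDeriv (by exact_mod_cast le_top))
  choose C hC using h1
  refine ⟨fun k j => if k ≤ j then ε / 2 ^ j else C k j, fun k => ?_, fun k j x => ?_⟩
  · refine (summable_nat_add_iff k).1 ?_
    have h2 : (fun j : ℕ => if k ≤ j + k then ε / 2 ^ (j + k) else C k (j + k)) =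
        fun j : ℕ => (ε / 2 ^ k) * (1 / 2) ^ j := by
      funext j
      rw [if_pos (Nat.le_add_left k j), pow_add, one_div, inv_pow]
      field_simp
    simp only [h2]
    exact (summable_geometric_of_lt_one (by norm_num) (by norm_num)).mul_left _
  · dsimp only
    split_ifs with h
    · exact hb j k h x
    · exact hC k j x

theorem abs_I (r : I) : |(r : ℝ)| ≤ 1 := by
  rw [abs_of_nonneg r.2.1]
  exact r.2.2

theorem prove_pert : S_PERT := by
  intro E _ _ _ ε g hg hc hb f hf
  obtain ⟨v, hv, hvb⟩ := bounds hg hc hb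
  have hv0 : ∀ j x, |g j x| ≤ v 0 j := by
    intro j x
    have := hvb 0 j x
    rwa [norm_iteratedFDeriv_zero] at this
  have hv1 : ∀ j x, ‖fderiv ℝ (g j) x‖ ≤ v 1 j := by
    intro j x
    have := hvb 1 j x
    rwa [norm_iteratedFDeriv_one] at this
  have hsum : ∀ (t : ℕ → I) (x : E), Summable fun j => (t j : ℝ) * g j x := by
    intro t x
    refine Summable.of_norm_bounded (hv 0) fun j => ?_
    rw [norm_mul]
    calc ‖(t j : ℝ)‖ * ‖g j x‖ ≤ 1 * v 0 j :=
          mul_le_mul (abs_I _) (hv0 j x) (norm_nonneg _) zero_le_one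
      _ = v 0 j := one_mul _
  have hsm : ∀ t : ℕ → I, ContDiff ℝ ∞ fun x => ∑' j, (t j : ℝ) * g j x := by
    intro t
    refine contDiff_tsum (v := v) (fun j => contDiff_const.mul (hg j)) (fun k _ => hv k) ?_
    intro k j x _
    have h1 : iteratedFDeriv ℝ k (fun x => (t j : ℝ) * g j x) x =
        (t j : ℝ) • iteratedFDeriv ℝ k (g j) x :=
      iteratedFDeriv_const_smul_apply' (a := (t j : ℝ))
        (((hg j).of_le (by exact_mod_cast le_top)).contDiffAt)
    rw [h1, norm_smul]
    calc ‖(t j : ℝ)‖ * ‖iteratedFDeriv ℝ k (g j) x‖ ≤ 1 * v k j :=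
          mul_le_mul (abs_I _) (hvb k j x) (norm_nonneg _) zero_le_one
      _ = v k j := one_mul _
  have htc : ∀ j, Continuous fun z : (ℕ → I) × E => (z.1 j : ℝ) := fun j =>
    continuous_subtype_val.comp ((continuous_apply j).comp continuous_fst)
  refine ⟨fun t => hf.add (hsm t), ?_, ?_, ?_⟩
  · refine (hf.continuous.comp continuous_snd).add ?_
    refine continuous_tsum (u := v 0) (fun j => ?_) (hv 0) fun j z => ?_
    · exact (htc j).mul ((hg j).continuous.comp continuous_snd)
    · rw [norm_mul]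
      calc ‖(z.1 j : ℝ)‖ * ‖g j z.2‖ ≤ 1 * v 0 j :=
            mul_le_mul (abs_I _) (hv0 j z.2) (norm_nonneg _) zero_le_one
        _ = v 0 j := one_mul _
  · have hfd : ∀ (t : ℕ → I) (x : E), fderiv ℝ (pert f g t) x =
        fderiv ℝ f x + ∑' j, (t j : ℝ) • fderiv ℝ (g j) x := by
      intro t x
      have h1 : pert f g t = f + fun x => ∑' j, (t j : ℝ) * g j x := rfl
      rw [h1, fderiv_add (hf.differentiable (by simp)).differentiableAt
        ((hsm t).differentiable (by simp)).differentiableAt]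
      congr 1
      have h2 : ∀ (j : ℕ) (x : E), fderiv ℝ (fun x => (t j : ℝ) * g j x) x =
          (t j : ℝ) • fderiv ℝ (g j) x := fun j x =>
        fderiv_const_mul ((hg j).differentiable (by simp)).differentiableAt _
      have h3 := fderiv_tsum (𝕜 := ℝ) (f := fun j x => (t j : ℝ) * g j x) (u := v 1) (x₀ := x) (hv 1)
        (fun j => ((contDiff_const.mul (hg j)).differentiable (by simp))) (fun j y => by
          rw [h2, norm_smul]
          calc ‖(t j : ℝ)‖ * ‖fderiv ℝ (g j) y‖ ≤ 1 * v 1 j :=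
                mul_le_mul (abs_I _) (hv1 j y) (norm_nonneg _) zero_le_one
            _ = v 1 j := one_mul _) (hsum t x)
      rw [h3]
      exact tsum_congr fun j => h2 j x
    have hcd : Continuous fun z : (ℕ → I) × E => fderiv ℝ (pert f g z.1) z.2 := by
      simp only [hfd]
      refine ((hf.continuous_fderiv (by simp)).comp continuous_snd).add ?_
      refine continuous_tsum (u := v 1) (fun j => ?_) (hv 1) fun j z => ?_
      · exact (htc j).smul (((hg j).continuous_fderiv (by simp)).comp continuous_snd)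
      · rw [norm_smul]
        calc ‖(z.1 j : ℝ)‖ * ‖fderiv ℝ (g j) z.2‖ ≤ 1 * v 1 j :=
              mul_le_mul (abs_I _) (hv1 j z.2) (norm_nonneg _) zero_le_one
          _ = v 1 j := one_mul _
    exact (InnerProductSpace.toDual ℝ E).symm.continuous.comp hcd
  · intro t j r r' x
    have h1 : ∀ s : I, ∑' i, (update t j s i : ℝ) * g i x =
        (s : ℝ) * g j x + ∑' i, ite (i = j) 0 ((t i : ℝ) * g i x) := by
      intro s
      rw [(hsum (update t j s) x).tsum_eq_add_tsum_ite j, update_self]
      congr 1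
      refine tsum_congr fun i => ?_
      by_cases h : i = j
      · rw [if_pos h, if_pos h]
      · rw [if_neg h, if_neg h, update_of_ne h]
    unfold pert
    rw [h1, h1]
    ring

end

end Pool.Agent.Y977.IV
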